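import Mathlib
import Pool.Agent.H.MP_32607b_nt.B

namespace Pool.Agent.Results.MP_32607b_nt.Yes

open Finset Pool.Agent.H.MP_32607b_nt

lemma key {p : ℕ} [hp : Fact p.Prime] {r s a n : ℕ} (hr : Odd r) (hs : Odd s) (r3 : 3 ≤ r)
    (rs : r ≤ s) (hn : p ^ a ∣ n) : (p : ℤ_[p]) ^ (2 * a) ∣
      ((r * s + 1).factorial / r.factorial ^ s : ℕ) * G p r s n := by
  have p2 := hp.out.two_le
  have cast : ∀ {e m : ℕ}, p ^ e ∣ m → (p : ℤ_[p]) ^ e ∣ m := fun h => by
    exact_mod_cast (Nat.cast_dvd_cast h : ((p ^ _ : ℕ) : ℤ_[p]) ∣ _)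
  obtain ⟨t, t1, t2⟩ : ∃ t, p ^ t ≤ r ∧ r < p ^ (t + 1) :=
    ⟨Nat.log p r, Nat.pow_log_le_self p (by omega), Nat.lt_pow_succ_log_self (by omega) r⟩
  have d1 : r / p ^ (t + 1) = 0 := Nat.div_eq_of_lt t2
  have d2 : r / p ^ (t + 2) = 0 :=
    Nat.div_eq_of_lt (t2.trans (Nat.pow_lt_pow_right (by omega) (by omega)))
  have split : ∀ {M : ℕ}, p ^ (2 * t) ∣ M → (∀ b y, p ^ b ∣ y → n = p ^ t * y →
      (p : ℤ_[p]) ^ (2 * (t + b)) ∣ M * G p r s n) → (p : ℤ_[p]) ^ (2 * a) ∣ M * G p r s n := by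
    intro M h1 h2
    rcases le_total a t with c | c
    · exact ((pow_dvd_pow _ (by omega)).trans (cast h1)).mul_right _
    · obtain ⟨b, rfl⟩ := Nat.exists_eq_add_of_le c
      obtain ⟨u, rfl⟩ := hn
      exact h2 b (p ^ b * u) (Dvd.intro _ rfl) (by ring)
  have gen : p ≠ 2 → ∀ {M : ℕ}, p ^ (2 * t + 1) ∣ M → (p : ℤ_[p]) ^ (2 * a) ∣ M * G p r s n := by
    intro h2 M h
    refine split ((pow_dvd_pow _ (by omega)).trans h) fun b y hy e => ?_
    obtain ⟨c, hc⟩ := cast h
    obtain ⟨c', hc'⟩ := caseA (s := s) hr hs (by omega) t2 hy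
    exact two_dvd h2 ⟨c * c', by rw [hc, e]; linear_combination (p ^ (2 * t) * c : ℤ_[p]) * hc'⟩
  have le : ∀ {e u : ℕ}, e * p ^ u ≤ r * s → e ≤ (r * s + 1) / p ^ u := fun h =>
    (Nat.le_div_iff_mul_le (by positivity)).2 (by omega)
  rcases t with _ | t
  · have h2 : p ≠ 2 := by rintro rfl; omega
    by_cases c : r * s + 1 < p
    · rcases a with _ | a
      · simp
      · exact (caseB hr hs (by omega) c hn).mul_left _
    · refine gen h2 (vC (i := 1) (j := 2) (by omega) le_rfl (by omega) ?_ (by omega))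
      have : 1 ≤ (r * s + 1) / p ^ 1 := (Nat.le_div_iff_mul_le (by positivity)).2 (by simp; omega)
      simp only [zero_add] at d1 d2
      rw [d1, d2]; exact Nat.le_add_right_of_le (by omega)
  by_cases h2 : p = 2
  · subst h2
    have h : 2 ^ (2 * (t + 1) + 2) ∣ (r * s + 1).factorial / r.factorial ^ s := by
      refine vC (i := 1) (j := t + 1 + 1) (by omega) le_rfl (by omega) ?_ (by omega)
      have u : t + 1 ≤ 2 ^ t := Nat.lt_two_pow_self
      obtain ⟨k, rfl⟩ := hr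
      obtain ⟨m, rfl⟩ := hs
      rw [pow_succ] at t1
      have a1 : 2 ^ t + 1 ≤ ((2 * k + 1) * (2 * m + 1) + 1) / 2 ^ (t + 1 + 1) := le (by
        rw [pow_succ, pow_succ]
        have : 2 ^ t ≤ k := by omega
        have : 2 ^ t ≤ m := by omega
        nlinarith)
      have a2 : (2 * m + 1) * k + m + 1 ≤ ((2 * k + 1) * (2 * m + 1) + 1) / 2 ^ 1 :=
        (Nat.le_div_iff_mul_le (by positivity)).2 (by nlinarith)
      rw [d1, show (2 * k + 1) / 2 ^ 1 = k by omega]; omega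
    refine split ((pow_dvd_pow _ (by omega)).trans h) fun b y hy e => ?_
    obtain ⟨c, hc⟩ := cast h
    obtain ⟨c', hc'⟩ := caseA (s := s) hr hs (by omega) t2 hy
    exact ⟨c * c', by
      rw [hc, e]; push_cast at hc' ⊢; linear_combination (2 ^ (2 * (t + 1)) * c : ℤ_[2]) * hc'⟩
  have p3 : 3 ≤ p := by omega
  have u : 2 * t + 1 ≤ p ^ t := by
    have := one_add_mul_le_pow (show (-2 : ℤ) ≤ 2 by norm_num) t
    have h3 : 3 ^ t ≤ p ^ t := Nat.pow_le_pow_left p3 t
    zify at h3 ⊢; norm_num at this; linarith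
  have po : Odd (p ^ (t + 1)) := (hp.out.odd_of_ne_two h2).pow
  have q1 : p ^ (t + 1) = p ^ t * p := pow_succ _ _
  have q2 : p ^ (t + 1 + 1) = p ^ t * p * p := by ring
  have base : p ^ t * p ^ (t + 1 + 1) ≤ r * s := by
    rw [show p ^ t * p ^ (t + 1 + 1) = p ^ (t + 1) * p ^ (t + 1) by ring]
    exact Nat.mul_le_mul t1 (t1.trans rs)
  rcases t1.eq_or_lt with rfl | t1
  · by_cases c : p ^ (2 * (t + 1)) ∣ (p ^ (t + 1) * s + 1).factorial / (p ^ (t + 1)).factorial ^ s
    · refine split c fun b y hy e => ?_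
      rw [mul_add, pow_add, e]
      exact mul_dvd_mul (cast c) (caseC h2 hs (by omega) hy)
    have t0 : t = 0 ∧ s < 2 * p := by
      by_contra k
      refine c (vC (i := t + 1 + 1) (j := t + 1 + 2) (by omega) (by omega) (by omega) ?_ (by omega))
      rw [d1, d2]
      rcases t with _ | t
      · have : 2 ≤ (p ^ (0 + 1) * s + 1) / p ^ (0 + 1 + 1) := le (by
          have : 2 * p ≤ s := by omega
          rw [q1, q2]; simp only [pow_zero, one_mul]; nlinarith)
        exact Nat.le_add_right_of_le (by omega)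
      · have a1 := le base
        have : 1 ≤ (p ^ (t + 1 + 1) * s + 1) / p ^ (t + 1 + 1 + 2) := le (by
          refine le_trans ?_ base
          rw [one_mul, ← pow_add]; exact Nat.pow_le_pow_right (by omega) (by omega))
        omega
    obtain ⟨rfl, s2⟩ := t0
    obtain ⟨M, hM⟩ := cast (vC (p := p) (r := p ^ (0 + 1)) (s := s) (e := 1) (i := 0 + 1 + 1)
      (j := 0 + 1 + 2) (by omega) (by omega) (by omega) (by
        have := le base
        rw [d1, d2]; simp only [pow_zero] at this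
        exact Nat.le_add_right_of_le (by omega)) (by omega))
    rw [hM]
    simp only [zero_add, pow_one] at *
    rcases a with _ | _ | a
    · simp
    · obtain ⟨y, rfl⟩ : p ∣ n := by simpa using hn
      obtain ⟨c, hc⟩ := (caseD (y := y) h2 hs rs s2).1
      exact ⟨M * c, by rw [hc]; ring⟩
    · obtain ⟨y, rfl⟩ := hn
      obtain ⟨c, hc⟩ := (caseD (y := p ^ (a + 1) * y) h2 hs rs s2).2 a (Dvd.intro _ rfl)
      exact ⟨M * c, by rw [show p ^ (a + 1 + 1) * y = p * (p ^ (a + 1) * y) by ring, hc]; ring⟩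
  by_cases c : 2 * p ^ (t + 1) ≤ r
  · refine gen h2 (vC (i := t + 1 + 1) (j := t + 1 + 2) (by omega) (by omega) (by omega) ?_
      (by omega))
    have : 4 * p ^ t ≤ (r * s + 1) / p ^ (t + 1 + 1) := le (by
      rw [show 4 * p ^ t * p ^ (t + 1 + 1) = 2 * p ^ (t + 1) * (2 * p ^ (t + 1)) by ring]
      exact Nat.mul_le_mul c (c.trans rs))
    rw [d1, d2]; exact Nat.le_add_right_of_le (by omega)
  · refine gen h2 (vC (i := t + 1) (j := t + 1 + 1) (by omega) (by omega) (by omega) ?_ (by omega))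
    have a1 := le base
    have a0 : p ^ (t + 1) + 2 ≤ r := by
      obtain ⟨k, hk⟩ := hr; obtain ⟨l, hl⟩ := po; omega
    have a2 : s + 2 ≤ (r * s + 1) / p ^ (t + 1) := le (by nlinarith)
    have a3 : r / p ^ (t + 1) = 1 := by
      rw [Nat.div_eq_iff (by positivity)]; omega
    rw [d1, a3]; omega

/-- For all positive integers `m, n, k` with `m ≥ k`, `n ^ 2` divides `C_{k,m} S_{k,m}(n)`. -/
theorem result (m n k : ℕ) (hm : 0 < m) (hn : 0 < n) (hk : 0 < k) (hkm : k ≤ m) :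
    n ^ 2 ∣ ((2 * k + 1) * (2 * m + 1) + 1).factorial / (2 * k + 1).factorial ^ (2 * m + 1) *
      ∑ h ∈ range n, h.choose (2 * k + 1) ^ (2 * m + 1) := by
  refine (Nat.dvd_iff_prime_pow_dvd_dvd _ _).2 fun p e hp he => ?_
  haveI := Fact.mk hp
  rw [hp.pow_dvd_iff_le_factorization (by positivity), Nat.factorization_pow] at he
  refine (pow_dvd_pow p he).trans ?_
  have := key (p := p) (odd_two_mul_add_one k) (odd_two_mul_add_one m) (by omega) (by omega)
    (Nat.ordProj_dvd n p)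
  simp only [G, ch_nat] at this
  rw [← Int.natCast_dvd_natCast, Nat.cast_pow, ← PadicInt.pow_p_dvd_int_iff]
  simpa only [Int.cast_natCast, Nat.cast_mul, Nat.cast_sum, Nat.cast_pow, Int.cast_mul,
    Int.cast_sum, Int.cast_pow, Finsupp.smul_apply, smul_eq_mul] using this

end Pool.Agent.Results.MP_32607b_nt.Yes
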